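import Pool.Agent.Y472.K.Defs

/-!
# Jensen's formula for the rate of a pair, comparison with `x = 0`
-/

set_option autoImplicit false

namespace Pool.Agent.Y155.TK

open Filter Topology MeasureTheory
open scoped Real
open Pool.Agent.Y472.K

/-- the point `e^{-i (x + i y)}` -/
noncomputable def aa (x y : ℝ) : ℂ := Complex.exp (-((x + y * Complex.I) * Complex.I))

theorem aa_norm (x y : ℝ) : ‖aa x y‖ = Real.exp y := by
  unfold aa
  rw [Complex.norm_exp]
  simp

theorem aa_ne (x y : ℝ) : aa x y ≠ 0 := Complex.exp_ne_zero _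

theorem fac (x y t : ℝ) : 2 * Complex.cos (x + y * Complex.I) - 2 * (Real.cos (2 * π * t) : ℂ) =
    (Complex.exp ((2 * π * t : ℝ) * Complex.I) - aa x y) *
      (Complex.exp (((-(2 * π * t) : ℝ)) * Complex.I) - aa x y) / aa x y := by
  have h1 : Complex.exp ((x + y * Complex.I) * Complex.I) = (aa x y)⁻¹ := by
    rw [aa, Complex.exp_neg, inv_inv]
  have h2 : Complex.exp (-(x + y * Complex.I) * Complex.I) = aa x y := by
    rw [aa, neg_mul]
  have h3 : Complex.exp (((-(2 * π * t) : ℝ)) * Complex.I) =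
      (Complex.exp ((2 * π * t : ℝ) * Complex.I))⁻¹ := by
    rw [← Complex.exp_neg]
    push_cast
    ring_nf
  have h4 : Complex.exp (-((2 * π * t : ℝ) : ℂ) * Complex.I) =
      (Complex.exp ((2 * π * t : ℝ) * Complex.I))⁻¹ := by
    rw [← Complex.exp_neg]
    ring_nf
  rw [Complex.ofReal_cos, Complex.cos, Complex.cos, h1, h2, h3, h4]
  have h5 := aa_ne x y
  have h6 := Complex.exp_ne_zero ((2 * π * t : ℝ) * Complex.I)
  field_simp
  ring

theorem pos (x y : ℝ) (hy : 0 < y) (θ : ℝ) : 0 < ‖Complex.exp (θ * Complex.I) - aa x y‖ := by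
  have h1 : ‖aa x y‖ - ‖Complex.exp (θ * Complex.I)‖ ≤ ‖Complex.exp (θ * Complex.I) - aa x y‖ := by
    rw [norm_sub_rev]
    exact norm_sub_norm_le _ _
  rw [Complex.norm_exp_ofReal_mul_I, aa_norm] at h1
  have h2 : 1 < Real.exp y := Real.one_lt_exp_iff.2 hy
  linarith

/-- the logarithm on the circle -/
noncomputable def hh (x y θ : ℝ) : ℝ := Real.log ‖Complex.exp (θ * Complex.I) - aa x y‖

theorem hh_cont (x y : ℝ) (hy : 0 < y) : Continuous (hh x y) := by
  unfold hh
  refine Continuous.log ?_ fun θ => (pos x y hy θ).ne'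
  fun_prop

theorem hh_per (x y : ℝ) : Function.Periodic (hh x y) (2 * π) := by
  intro θ
  unfold hh
  have : ((θ + 2 * π : ℝ) : ℂ) * Complex.I = θ * Complex.I + 2 * π * Complex.I := by
    push_cast
    ring
  rw [this, Complex.exp_periodic]

theorem lf_eq (x y : ℝ) (hy : 0 < y) (t : ℝ) :
    lf x y t = hh x y (2 * π * t) + hh x y (-(2 * π * t)) - y := by
  unfold lf hh
  rw [fac, norm_div, norm_mul, Real.log_div, Real.log_mul, aa_norm, Real.log_exp]
  · exact (pos x y hy _).ne'
  · exact (pos x y hy _).ne'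
  · exact mul_ne_zero (pos x y hy _).ne' (pos x y hy _).ne'
  · rw [aa_norm]
    exact (Real.exp_pos y).ne'

theorem lf_cont (x y : ℝ) (hy : 0 < y) : Continuous (lf x y) := by
  have h1 : lf x y = fun t => hh x y (2 * π * t) + hh x y (-(2 * π * t)) - y := by
    funext t
    exact lf_eq x y hy t
  rw [h1]
  have := hh_cont x y hy
  fun_prop

theorem nn_pos (x y : ℝ) (hy : 0 < y) (t : ℝ) :
    0 < ‖2 * Complex.cos (x + y * Complex.I) - 2 * (Real.cos (2 * π * t) : ℂ)‖ := by
  rw [fac, norm_div, norm_mul, aa_norm]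
  exact div_pos (mul_pos (pos x y hy _) (pos x y hy _)) (Real.exp_pos y)

theorem hh_int (x y : ℝ) (hy : 0 < y) : ∫ θ in (-π)..π, hh x y θ = 2 * π * y := by
  have h1 : 1 < ‖aa x y‖ := by
    rw [aa_norm]
    exact Real.one_lt_exp_iff.2 hy
  have h2 := circleAverage_log_norm_sub_const₂ h1
  rw [aa_norm, Real.log_exp, Real.circleAverage_def, smul_eq_mul] at h2
  have h3 : ∫ θ in (0 : ℝ)..2 * π, hh x y θ = 2 * π * y := by
    have h4 : (fun θ : ℝ => Real.log ‖circleMap 0 1 θ - aa x y‖) = hh x y := by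
      funext θ
      simp [hh, circleMap]
    rw [h4] at h2
    have := Real.pi_pos
    field_simp at h2
    linarith
  have h4 := (hh_per x y).intervalIntegral_add_eq (-π) 0
  rw [zero_add] at h4
  rw [← h3, ← h4]
  ring_nf

theorem jen : S_JEN := by
  intro x y hy
  have hc := hh_cont x y hy
  simp_rw [lf_eq x y hy]
  have i1 : ∀ a b : ℝ, IntervalIntegrable (fun t => hh x y (2 * π * t)) volume a b := fun a b =>
    (by fun_prop : Continuous fun t => hh x y (2 * π * t)).intervalIntegrable _ _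
  have i2 : ∀ a b : ℝ, IntervalIntegrable (fun t => hh x y (-(2 * π * t))) volume a b := fun a b =>
    (by fun_prop : Continuous fun t => hh x y (-(2 * π * t))).intervalIntegrable _ _
  rw [intervalIntegral.integral_sub ((i1 _ _).add (i2 _ _)) (by simp),
    intervalIntegral.integral_add (i1 _ _) (i2 _ _)]
  have e1 : ∫ t in (0 : ℝ)..1 / 2, hh x y (-(2 * π * t)) =
      ∫ t in (-(1 / 2) : ℝ)..0, hh x y (2 * π * t) := by
    have := intervalIntegral.integral_comp_neg (a := (0 : ℝ)) (b := 1 / 2)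
      (fun t => hh x y (2 * π * t))
    rw [neg_zero] at this
    rw [← this]
    refine intervalIntegral.integral_congr fun t _ => ?_
    ring_nf
  rw [e1, add_comm, intervalIntegral.integral_add_adjacent_intervals (i1 _ _) (i1 _ _)]
  have e2 : ∫ t in (-(1 / 2) : ℝ)..(1 / 2), hh x y (2 * π * t) = y := by
    have h0 : (2 * π : ℝ) ≠ 0 := by positivity
    rw [intervalIntegral.integral_comp_mul_left (fun t => hh x y t) h0]
    have h1 : 2 * π * -(1 / 2) = -π := by ring
    have h2 : 2 * π * (1 / 2) = π := by ring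
    rw [h1, h2, hh_int x y hy, smul_eq_mul]
    field_simp
  rw [e2, intervalIntegral.integral_const]
  simp
  ring

/-! ### comparison with `x = 0` -/

theorem nsq (x y c : ℝ) : ‖2 * Complex.cos (x + y * Complex.I) - 2 * (c : ℂ)‖ ^ 2 =
    4 * (Real.cosh y ^ 2 - Real.sin x ^ 2 - 2 * c * Real.cos x * Real.cosh y + c ^ 2) := by
  rw [Complex.cos_add_mul_I, ← Complex.ofReal_cos, ← Complex.ofReal_cosh, ← Complex.ofReal_sin,
    ← Complex.ofReal_sinh]
  have h1 : 2 * ((Real.cos x : ℂ) * (Real.cosh y : ℂ) - (Real.sin x : ℂ) * (Real.sinh y : ℂ) *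
      Complex.I) - 2 * (c : ℂ) = ((2 * (Real.cos x * Real.cosh y - c) : ℝ) : ℂ) +
      ((-(2 * Real.sin x * Real.sinh y) : ℝ) : ℂ) * Complex.I := by
    push_cast
    ring
  rw [h1, ← Complex.normSq_eq_norm_sq, Complex.normSq_add_mul_I]
  have h2 := Real.cosh_sq y
  have h3 := Real.sin_sq_add_cos_sq x
  have h4 : Real.sinh y ^ 2 = Real.cosh y ^ 2 - 1 := by linarith
  have h5 : Real.cos x ^ 2 = 1 - Real.sin x ^ 2 := by linarith
  have h6 : (2 * (Real.cos x * Real.cosh y - c)) ^ 2 + (-(2 * Real.sin x * Real.sinh y)) ^ 2 =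
      4 * (Real.cos x ^ 2 * Real.cosh y ^ 2 - 2 * c * Real.cos x * Real.cosh y + c ^ 2 +
        Real.sin x ^ 2 * Real.sinh y ^ 2) := by ring
  rw [h6, h4, h5]
  ring

/-- the difference of the squares -/
theorem nsq_sub (x y c : ℝ) : ‖2 * Complex.cos (x + y * Complex.I) - 2 * (c : ℂ)‖ ^ 2 -
    ‖2 * Complex.cos ((0 : ℝ) + y * Complex.I) - 2 * (c : ℂ)‖ ^ 2 =
      4 * (1 - Real.cos x) * (2 * c * Real.cosh y - (1 + Real.cos x)) := by
  rw [nsq, nsq, Real.sin_zero, Real.cos_zero]
  have h3 := Real.sin_sq_add_cos_sq x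
  have h5 : Real.sin x ^ 2 = 1 - Real.cos x ^ 2 := by linarith
  rw [h5]
  ring

theorem lf_le (x y : ℝ) (hy : 0 < y) (t : ℝ)
    (h : 2 * Real.cos (2 * π * t) * Real.cosh y ≤ 1 + Real.cos x) : lf x y t ≤ lf 0 y t := by
  unfold lf
  refine Real.log_le_log (nn_pos x y hy t) ?_
  refine (pow_le_pow_iff_left₀ (norm_nonneg _) (norm_nonneg _) two_ne_zero).1 ?_
  have h1 := nsq_sub x y (Real.cos (2 * π * t))
  have h2 := Real.cos_le_one x
  nlinarith

theorem lf_ge (x y : ℝ) (hy : 0 < y) (t : ℝ)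
    (h : 1 + Real.cos x ≤ 2 * Real.cos (2 * π * t) * Real.cosh y) : lf 0 y t ≤ lf x y t := by
  unfold lf
  refine Real.log_le_log (nn_pos 0 y hy t) ?_
  refine (pow_le_pow_iff_left₀ (norm_nonneg _) (norm_nonneg _) two_ne_zero).1 ?_
  have h1 := nsq_sub x y (Real.cos (2 * π * t))
  have h2 := Real.cos_le_one x
  nlinarith

theorem lf_lt (x y : ℝ) (hy : 0 < y) (t : ℝ) (hx : Real.cos x < 1)
    (h : 2 * Real.cos (2 * π * t) * Real.cosh y < 1 + Real.cos x) : lf x y t < lf 0 y t := by
  unfold lf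
  refine Real.log_lt_log (nn_pos x y hy t) ?_
  refine (pow_lt_pow_iff_left₀ (norm_nonneg _) (norm_nonneg _) two_ne_zero).1 ?_
  have h1 := nsq_sub x y (Real.cos (2 * π * t))
  nlinarith

theorem lf_gt (x y : ℝ) (hy : 0 < y) (t : ℝ) (hx : Real.cos x < 1)
    (h : 1 + Real.cos x < 2 * Real.cos (2 * π * t) * Real.cosh y) : lf 0 y t < lf x y t := by
  unfold lf
  refine Real.log_lt_log (nn_pos 0 y hy t) ?_
  refine (pow_lt_pow_iff_left₀ (norm_nonneg _) (norm_nonneg _) two_ne_zero).1 ?_
  have h1 := nsq_sub x y (Real.cos (2 * π * t))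
  nlinarith

theorem cos_anti {s t : ℝ} (h0 : 0 ≤ s) (hst : s ≤ t) (ht : t ≤ 1 / 2) :
    Real.cos (2 * π * t) ≤ Real.cos (2 * π * s) := by
  have := Real.pi_pos
  refine Real.cos_le_cos_of_nonneg_of_le_pi (by positivity) (by nlinarith) (by nlinarith)

theorem cos_anti' {s t : ℝ} (h0 : 0 ≤ s) (hst : s < t) (ht : t ≤ 1 / 2) :
    Real.cos (2 * π * t) < Real.cos (2 * π * s) := by
  have := Real.pi_pos
  refine Real.cos_lt_cos_of_nonneg_of_le_pi (by positivity) (by nlinarith) (by nlinarith)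

/-- the left half -/
theorem half (hj : S_JEN) (x y b : ℝ) (hy : 0 < y) (hb0 : 0 ≤ b) (hb : b ≤ 1 / 2) :
    ∫ t in b..(1 / 2), lf x y t ≤ ∫ t in b..(1 / 2), lf 0 y t := by
  have c1 := lf_cont x y hy
  have c0 := lf_cont 0 y hy
  rcases le_total (2 * Real.cos (2 * π * b) * Real.cosh y) (1 + Real.cos x) with h | h
  · refine intervalIntegral.integral_mono_on hb (c1.intervalIntegrable _ _)
      (c0.intervalIntegrable _ _) fun t ht => lf_le x y hy t (le_trans ?_ h)
    have h1 := cos_anti hb0 ht.1 ht.2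
    have h2 := Real.cosh_pos y
    nlinarith
  · have h1 : ∫ t in (0 : ℝ)..b, lf 0 y t ≤ ∫ t in (0 : ℝ)..b, lf x y t := by
      refine intervalIntegral.integral_mono_on hb0 (c0.intervalIntegrable _ _)
        (c1.intervalIntegrable _ _) fun t ht => lf_ge x y hy t (h.trans ?_)
      have h1 := cos_anti ht.1 ht.2 hb
      have h2 := Real.cosh_pos y
      nlinarith
    have h2 := intervalIntegral.integral_add_adjacent_intervals
      (c1.intervalIntegrable (μ := volume) 0 b) (c1.intervalIntegrable (μ := volume) b (1 / 2))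
    have h3 := intervalIntegral.integral_add_adjacent_intervals
      (c0.intervalIntegrable (μ := volume) 0 b) (c0.intervalIntegrable (μ := volume) b (1 / 2))
    rw [hj x y hy] at h2
    rw [hj 0 y hy] at h3
    linarith

theorem half' (hj : S_JEN) (x y b : ℝ) (hy : 0 < y) (hx : Real.cos x < 1) (hb0 : 0 < b)
    (hb : b < 1 / 2) : ∫ t in b..(1 / 2), lf x y t < ∫ t in b..(1 / 2), lf 0 y t := by
  have c1 := lf_cont x y hy
  have c0 := lf_cont 0 y hy
  rcases le_total (2 * Real.cos (2 * π * b) * Real.cosh y) (1 + Real.cos x) with h | h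
  · refine intervalIntegral.integral_lt_integral_of_continuousOn_of_le_of_exists_lt hb
      c1.continuousOn c0.continuousOn (fun t ht => lf_le x y hy t (le_trans ?_ h))
      ⟨1 / 2, ⟨hb.le, le_rfl⟩, lf_lt x y hy _ hx (lt_of_lt_of_le ?_ h)⟩
    · have h1 := cos_anti hb0.le ht.1.le ht.2
      have h2 := Real.cosh_pos y
      nlinarith
    · have h1 := cos_anti' hb0.le hb le_rfl
      have h2 := Real.cosh_pos y
      nlinarith
  · have h1 : ∫ t in (0 : ℝ)..b, lf 0 y t < ∫ t in (0 : ℝ)..b, lf x y t := by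
      refine intervalIntegral.integral_lt_integral_of_continuousOn_of_le_of_exists_lt hb0
        c0.continuousOn c1.continuousOn (fun t ht => lf_ge x y hy t (h.trans ?_))
        ⟨0, ⟨le_rfl, hb0.le⟩, lf_gt x y hy _ hx (lt_of_le_of_lt h ?_)⟩
      · have h1 := cos_anti ht.1.le ht.2 hb.le
        have h2 := Real.cosh_pos y
        nlinarith
      · have h1 := cos_anti' le_rfl hb0 hb.le
        have h2 := Real.cosh_pos y
        nlinarith
    have h2 := intervalIntegral.integral_add_adjacent_intervals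
      (c1.intervalIntegrable (μ := volume) 0 b) (c1.intervalIntegrable (μ := volume) b (1 / 2))
    have h3 := intervalIntegral.integral_add_adjacent_intervals
      (c0.intervalIntegrable (μ := volume) 0 b) (c0.intervalIntegrable (μ := volume) b (1 / 2))
    rw [hj x y hy] at h2
    rw [hj 0 y hy] at h3
    linarith

theorem lf_symm (x y t : ℝ) : lf x y (1 - t) = lf x y t := by
  unfold lf
  have : Real.cos (2 * π * (1 - t)) = Real.cos (2 * π * t) := by
    have h1 : 2 * π * (1 - t) = 2 * π - 2 * π * t := by ring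
    rw [h1, Real.cos_two_pi_sub]
  rw [this]

theorem right_half (x y a : ℝ) : ∫ t in (1 / 2 : ℝ)..a, lf x y t =
    ∫ t in (1 - a)..(1 / 2), lf x y t := by
  have h1 := intervalIntegral.integral_comp_sub_left (a := (1 / 2 : ℝ)) (b := a)
    (fun t => lf x y t) 1
  simp only [lf_symm] at h1
  rw [h1]
  norm_num

theorem g1 : S_G1 := by
  intro hj x y a b hy hx hb0 hb ha ha1
  have c1 := lf_cont x y hy
  have c0 := lf_cont 0 y hy
  have h2 := intervalIntegral.integral_add_adjacent_intervals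
    (c1.intervalIntegrable (μ := volume) b (1 / 2)) (c1.intervalIntegrable (μ := volume) (1 / 2) a)
  have h3 := intervalIntegral.integral_add_adjacent_intervals
    (c0.intervalIntegrable (μ := volume) b (1 / 2)) (c0.intervalIntegrable (μ := volume) (1 / 2) a)
  rw [right_half] at h2 h3
  have h4 := half hj x y (1 - a) hy (by linarith) (by linarith)
  refine ⟨?_, fun hx0 hb0' hb' => ?_⟩
  · have h5 := half hj x y b hy hb0 hb
    linarith
  · have hc : Real.cos x < 1 := by
      refine lt_of_le_of_ne (Real.cos_le_one x) fun h => hx0 ?_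
      have := abs_le.1 hx
      refine (Real.cos_eq_one_iff_of_lt_of_lt ?_ ?_).1 h
      · have := Real.pi_pos
        linarith
      · have := Real.pi_pos
        linarith
    have h5 := half' hj x y b hy hc hb0' hb'
    linarith

end Pool.Agent.Y155.TK
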